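import Pool.Agent.TH262.SawE.Blob

/-!
Gaussian type lower bound at every lattice point, in words.
-/

set_option autoImplicit false

namespace Pool.Agent.TH262.SawE

open H981 Finset Pool.Agent.TH795.EP

/-- `(log n)^3` is small compared with the main term -/
theorem log_gauss {n : ℕ} (hn : 1 ≤ n) {r : ℝ} (hr : 1 ≤ r) (hrn : r ≤ n) :
    Real.log n ^ 3 ≤ 64 * ((1 + r ^ 2 / n) * Real.log (2 + n / r) ^ 3) := by
  have hn0 : (0 : ℝ) < n := by exact_mod_cast (by omega : 0 < n)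
  have hn1 : (1 : ℝ) ≤ n := by exact_mod_cast hn
  have hr0 : (0 : ℝ) < r := by linarith
  obtain ⟨z, hz⟩ : ∃ z, z = (n : ℝ) / r := ⟨_, rfl⟩
  have hz1 : 1 ≤ z := by rw [hz, le_div_iff₀ hr0, one_mul]; exact hrn
  have hl1 : 1 ≤ Real.log (2 + z) := by
    have h1 : Real.log 3 ≤ Real.log (2 + z) := Real.log_le_log (by norm_num) (by linarith)
    have h2 : 1 ≤ Real.log 3 := by
      rw [Real.le_log_iff_exp_le (by norm_num)]
      linarith [Real.exp_one_lt_d9]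
    linarith
  rw [← hz]
  have hl3 : 1 ≤ Real.log (2 + z) ^ 3 := one_le_pow₀ hl1
  have hln := Real.log_nonneg hn1
  have hrn0 : 0 ≤ r ^ 2 / n := by positivity
  rcases le_or_gt (n : ℝ) (z ^ 4) with h | h
  · have h1 : Real.log n ≤ 4 * Real.log (2 + z) := by
      have h2 := Real.log_le_log hn0 h
      rw [Real.log_pow] at h2
      have h3 : Real.log z ≤ Real.log (2 + z) := Real.log_le_log (by linarith) (by linarith)
      push_cast at h2
      linarith
    have h2 : Real.log n ^ 3 ≤ 64 * Real.log (2 + z) ^ 3 := by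
      calc Real.log n ^ 3 ≤ (4 * Real.log (2 + z)) ^ 3 := pow_le_pow_left₀ hln h1 3
        _ = _ := by ring
    nlinarith [mul_nonneg hrn0 (show 0 ≤ Real.log (2 + z) ^ 3 by linarith)]
  · obtain ⟨w, hw⟩ : ∃ w, w = Real.sqrt n := ⟨_, rfl⟩
    have hw0 : 0 < w := by rw [hw]; exact Real.sqrt_pos.2 hn0
    have hw2 : w ^ 2 = n := by rw [hw]; exact Real.sq_sqrt hn0.le
    have hw1 : 1 ≤ w := by
      rw [hw, Real.one_le_sqrt]; exact hn1
    have hzw : z ^ 2 ≤ w := by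
      have : (z ^ 2) ^ 2 ≤ w ^ 2 := by rw [hw2]; nlinarith
      exact le_of_sq_le_sq this hw0.le
    have h1 : w ≤ r ^ 2 / n := by
      have h2 : r ^ 2 * z ^ 2 = (n : ℝ) ^ 2 := by rw [hz]; field_simp
      rw [le_div_iff₀ hn0]
      have h3 : w * n * z ^ 2 ≤ r ^ 2 * z ^ 2 := by
        rw [h2]
        calc w * n * z ^ 2 ≤ w * n * w := by gcongr
          _ = _ := by rw [← hw2]; ring
      exact le_of_mul_le_mul_right h3 (by positivity)
    have h2 : Real.log n ^ 3 ≤ 48 * w := by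
      have h3 := log3_le hw1
      have h4 : Real.log n = 2 * Real.log w := by
        rw [← hw2, Real.log_pow]; push_cast; ring
      rw [h4]
      nlinarith
    have h3 : w ≤ (1 + r ^ 2 / n) * Real.log (2 + z) ^ 3 := by
      calc w ≤ (1 + r ^ 2 / n) * 1 := by linarith
        _ ≤ _ := by gcongr
    linarith

/-- **Every lattice point.** -/
theorem gauss_words : ∃ K : ℝ, 0 ≤ K ∧ ∀ n : ℕ, 2 ≤ n → ∀ x y : ℤ, (x, y) ≠ (0, 0) →
    (x + y - n) % 2 = 0 → |x| + |y| ≤ n → ∀ r : ℝ, 0 ≤ r → r ^ 2 = (x : ℝ) ^ 2 + (y : ℝ) ^ 2 →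
    Real.exp (-(K * ((1 + r ^ 2 / n) * Real.log (2 + n / r) ^ 3))) * c n ≤ a n x y := by
  obtain ⟨K, hK0, hup', har⟩ := exists_K
  have hup : ∀ n : ℕ, 2 ≤ n → Up n K := hup'
  refine ⟨1584 * (2218 * K + 14921) + 64 * (2 * K + 9) + (64 * K + 2 * 104544), by positivity, ?_⟩
  intro n hn x y hxy hpar hsumn r hr0 hr2
  have hn0 : (0 : ℝ) < n := by exact_mod_cast (by omega : 0 < n)
  -- the norms
  obtain ⟨ρ, hρ⟩ : ∃ ρ : ℕ, (ρ : ℤ) = max |x| |y| :=
    ⟨(max |x| |y|).toNat, Int.toNat_of_nonneg (le_max_of_le_left (abs_nonneg x))⟩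
  have hxρ : |x| ≤ ρ := by rw [hρ]; exact le_max_left _ _
  have hyρ : |y| ≤ ρ := by rw [hρ]; exact le_max_right _ _
  have hρ1 : 1 ≤ ρ := by
    by_contra hcon
    have h0 : ρ = 0 := by omega
    rw [h0] at hxρ hyρ
    have h1 : |x| = 0 := le_antisymm (by simpa using hxρ) (abs_nonneg x)
    have h2 : |y| = 0 := le_antisymm (by simpa using hyρ) (abs_nonneg y)
    rw [abs_eq_zero] at h1 h2
    exact hxy (by rw [h1, h2])
  have hρn : ρ ≤ n := by
    have h1 : (ρ : ℤ) ≤ |x| + |y| := by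
      rw [hρ]
      have := abs_nonneg x
      have := abs_nonneg y
      exact max_le (by omega) (by omega)
    omega
  have hρr : (ρ : ℝ) ^ 2 ≤ r ^ 2 := by
    have h1 : ((ρ : ℤ) : ℝ) ^ 2 ≤ (x : ℝ) ^ 2 + (y : ℝ) ^ 2 := by
      rw [hρ]
      rcases max_choice |x| |y| with h' | h' <;> rw [h']
      · push_cast
        rw [sq_abs]
        nlinarith [sq_nonneg (y : ℝ)]
      · push_cast
        rw [sq_abs]
        nlinarith [sq_nonneg (x : ℝ)]
    rw [hr2]
    exact_mod_cast h1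
  have hxr : (x : ℝ) ^ 2 ≤ (ρ : ℝ) ^ 2 := by
    have : x ^ 2 ≤ (ρ : ℤ) ^ 2 := sq_le_sq' (by linarith [neg_abs_le x]) (by linarith [le_abs_self x])
    exact_mod_cast this
  have hyr : (y : ℝ) ^ 2 ≤ (ρ : ℝ) ^ 2 := by
    have : y ^ 2 ≤ (ρ : ℤ) ^ 2 := sq_le_sq' (by linarith [neg_abs_le y]) (by linarith [le_abs_self y])
    exact_mod_cast this
  have hρ1r : (1 : ℝ) ≤ ρ := by exact_mod_cast hρ1
  have hρr' : (ρ : ℝ) ≤ r := le_of_sq_le_sq hρr hr0
  have hr1 : 1 ≤ r := by linarith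
  have hr2ρ : r ≤ 2 * ρ := by
    apply le_of_sq_le_sq _ (by positivity)
    nlinarith
  have hrn : r ≤ n := by
    have h1 : (|(x : ℝ)| + |(y : ℝ)|) ≤ n := by exact_mod_cast hsumn
    apply le_of_sq_le_sq _ hn0.le
    have h2 : r ^ 2 ≤ (|(x : ℝ)| + |(y : ℝ)|) ^ 2 := by
      rw [hr2, ← sq_abs (x : ℝ), ← sq_abs (y : ℝ)]
      nlinarith [mul_nonneg (abs_nonneg (x : ℝ)) (abs_nonneg (y : ℝ))]
    have h3 : (|(x : ℝ)| + |(y : ℝ)|) ^ 2 ≤ (n : ℝ) ^ 2 := by
      apply pow_le_pow_left₀ _ h1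
      positivity
    linarith
  have hrpos : 0 < r := by linarith
  -- the main term
  have hlg := log_gauss (by omega : 1 ≤ n) hr1 hrn
  obtain ⟨l, hl⟩ : ∃ l, l = Real.log (2 + n / r) := ⟨_, rfl⟩
  have hz1 : 1 ≤ n / r := by rw [le_div_iff₀ hrpos, one_mul]; exact hrn
  have hl1 : 1 ≤ l := by
    have h1 : Real.log 3 ≤ Real.log (2 + n / r) := Real.log_le_log (by norm_num) (by linarith)
    have h2 : 1 ≤ Real.log 3 := by
      rw [Real.le_log_iff_exp_le (by norm_num)]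
      linarith [Real.exp_one_lt_d9]
    rw [hl]; linarith
  have hl3 : 1 ≤ l ^ 3 := one_le_pow₀ hl1
  rw [← hl] at hlg ⊢
  obtain ⟨E, hE⟩ : ∃ E, E = (1 + r ^ 2 / n) * l ^ 3 := ⟨_, rfl⟩
  have hfac0 : 0 ≤ r ^ 2 / n := by positivity
  have hE1 : 1 + r ^ 2 / n ≤ E := by
    rw [hE]; exact le_mul_of_one_le_right (by linarith) hl3
  have hE0 : 0 ≤ E := by linarith
  rw [← hE] at hlg ⊢
  have hKlog : K * Real.log n ^ 3 ≤ 64 * K * E := by
    have := mul_le_mul_of_nonneg_left hlg hK0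
    linarith
  -- the scales
  obtain ⟨s, hs⟩ : ∃ s, s = Nat.sqrt n := ⟨_, rfl⟩
  have hs1 : s * s ≤ n := by rw [hs]; exact Nat.sqrt_le n
  have hs2 : n < (s + 1) * (s + 1) := by rw [hs]; exact Nat.lt_succ_sqrt n
  obtain ⟨R, hR⟩ : ∃ R, R = ρ + s + 1 := ⟨_, rfl⟩
  have hR2 : R * R ≤ 3 * (ρ * ρ + 2 * n) := by
    rw [hR]
    zify
    have h1 : (s : ℤ) * s ≤ n := by exact_mod_cast hs1
    have h2 : (1 : ℤ) ≤ n := by omega
    have h3 : ((ρ : ℤ) + s + 1) * (ρ + s + 1) = 3 * (ρ * ρ + s * s + 1) - ((ρ : ℤ) - s) ^ 2 -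
        ((ρ : ℤ) - 1) ^ 2 - ((s : ℤ) - 1) ^ 2 := by ring
    rw [h3]
    linarith [sq_nonneg ((ρ : ℤ) - s), sq_nonneg ((ρ : ℤ) - 1), sq_nonneg ((s : ℤ) - 1)]
  have hR2r : (R : ℝ) * R ≤ 3 * ((ρ : ℝ) ^ 2 + 2 * n) := by
    have : ((R * R : ℕ) : ℝ) ≤ ((3 * (ρ * ρ + 2 * n) : ℕ) : ℝ) := by exact_mod_cast hR2
    push_cast at this
    linarith
  have hRn : n < R * R := by
    refine lt_of_lt_of_le hs2 ?_
    apply Nat.mul_le_mul <;> omega
  obtain ⟨T, hT⟩ : ∃ T, T = n / (132 * R) := ⟨_, rfl⟩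
  have hTle : T * (132 * R) ≤ n := by rw [hT]; exact Nat.div_mul_le_self n _
  have hTlt : n < (T + 1) * (132 * R) := by
    rw [hT]; exact (Nat.div_lt_iff_lt_mul (by omega)).1 (Nat.lt_succ_self _)
  rcases Nat.eq_zero_or_pos T with hT0 | hT0
  · -- the trivial bound
    apply trivial_bound (hup n hn) hxy hpar hsumn
    have h1 : n < 132 * R := by
      rw [hT0] at hTlt
      omega
    have h2 : (n : ℝ) ^ 2 ≤ 104544 * (n + (ρ : ℝ) ^ 2) := by
      have h3 : (n : ℝ) ≤ 132 * R := by exact_mod_cast h1.le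
      have h4 : (n : ℝ) ^ 2 ≤ (132 * R) ^ 2 := pow_le_pow_left₀ hn0.le h3 2
      have h5 : (132 * (R : ℝ)) ^ 2 = 17424 * (R * R) := by ring
      rw [h5] at h4
      linarith [sq_nonneg (ρ : ℝ)]
    have h3 : (n : ℝ) ≤ 104544 * (1 + r ^ 2 / n) := by
      have h4 : (n : ℝ) ≤ 104544 * ((n + r ^ 2) / n) := by
        rw [mul_div_assoc', le_div_iff₀ hn0, ← sq]
        linarith
      rwa [add_div, div_self hn0.ne'] at h4
    have h4 : 0 ≤ 1584 * (2218 * K + 14921) * E := by positivity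
    have h5 : 0 ≤ 64 * (2 * K + 9) * E := by positivity
    have h6 : (n : ℝ) ≤ 104544 * E := h3.trans (by linarith)
    linarith
  · have hT1 : 1 ≤ T := hT0
    have hex : ∃ j, R ≤ 2 ^ j * (2 * T + 1) := by
      refine ⟨R, ?_⟩
      have h1 : R ≤ 2 ^ R := Nat.lt_two_pow_self.le
      calc R ≤ 2 ^ R * 1 := by omega
        _ ≤ _ := Nat.mul_le_mul_left _ (by omega)
    obtain ⟨j, hj⟩ : ∃ j, j = Nat.find hex := ⟨_, rfl⟩
    have hj1 : R ≤ 2 ^ j * (2 * T + 1) := by rw [hj]; exact Nat.find_spec hex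
    have hTR : 132 * T < R := by
      by_contra hcon
      push Not at hcon
      have h1 : R * R ≤ T * (132 * R) := by
        calc R * R ≤ (132 * T) * R := Nat.mul_le_mul_right R hcon
          _ = _ := by ring
      omega
    have hjT : 2 ^ j * T ≤ R := by
      rcases Nat.eq_zero_or_pos j with h0 | h0
      · rw [h0]; omega
      · obtain ⟨i, hi⟩ : ∃ i, j = i + 1 := ⟨j - 1, by omega⟩
        have h1 : ¬ R ≤ 2 ^ i * (2 * T + 1) := by
          apply Nat.find_min hex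
          rw [← hj]; omega
        rw [hi, pow_succ]
        calc 2 ^ i * 2 * T = 2 ^ i * (2 * T) := by ring
          _ ≤ 2 ^ i * (2 * T + 1) := Nat.mul_le_mul_left _ (by omega)
          _ ≤ R := by omega
    have hcov := (cov_box hK0 hup hT1).iter hK0 hup (by omega) j
    obtain ⟨m, hm, h1⟩ := hcov x y
      (by
        refine hxρ.trans ?_
        exact_mod_cast (by omega : ρ ≤ 2 ^ j * (2 * T + 1)))
      (by
        refine hyρ.trans ?_
        exact_mod_cast (by omega : ρ ≤ 2 ^ j * (2 * T + 1)))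
    have hm2 : 2 * m ≤ n := by
      have h2 : 64 * T ^ 2 + 2 ≤ 66 * T ^ 2 := by
        have : 1 ≤ T ^ 2 := Nat.one_le_pow _ _ hT1
        omega
      calc 2 * m ≤ 2 * (2 ^ j * (64 * T ^ 2 + 2)) := Nat.mul_le_mul_left _ hm
        _ ≤ 2 * (2 ^ j * (66 * T ^ 2)) := by gcongr
        _ = (2 ^ j * T) * (132 * T) := by ring
        _ ≤ R * (132 * T) := Nat.mul_le_mul_right _ hjT
        _ = T * (132 * R) := by ring
        _ ≤ n := hTle
    have hn8 : 8 ≤ n := by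
      have : 1 * (132 * 1) ≤ T * (132 * R) := Nat.mul_le_mul hT1 (by omega)
      omega
    have hmn : m + 4 ≤ n := by omega
    have h2 := fill hn (hup n hn) (har n hn) hmn hxy hpar h1
    refine le_trans (mul_le_mul_of_nonneg_right ?_ (Nat.cast_nonneg _)) h2
    unfold q
    rw [← Real.exp_add]
    apply Real.exp_le_exp.2
    -- logarithms
    have hTr : (1 : ℝ) ≤ T := by exact_mod_cast hT1
    have hz66 : 66 * (T : ℝ) ≤ 2 + n / r := by
      have h3 : 66 * (T : ℝ) * r ≤ n := by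
        have h4 : ((T * (132 * R) : ℕ) : ℝ) ≤ n := by exact_mod_cast hTle
        push_cast at h4
        have h5 : (ρ : ℝ) ≤ R := by exact_mod_cast (by omega : ρ ≤ R)
        have h6 : r ≤ 2 * R := by linarith
        calc 66 * (T : ℝ) * r ≤ 66 * T * (2 * R) := by gcongr
          _ = T * (132 * R) := by ring
          _ ≤ n := h4
      have h4 : 66 * (T : ℝ) ≤ n / r := by rw [le_div_iff₀ hrpos]; exact h3
      linarith
    have hlog66 : Real.log (66 * T) ≤ l := by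
      rw [hl]
      exact Real.log_le_log (by positivity) hz66
    have hlA : Real.log ((64 * T ^ 2 + 2 : ℕ) : ℝ) ≤ 2 * l := by
      have h3 : ((64 * T ^ 2 + 2 : ℕ) : ℝ) ≤ (66 * (T : ℝ)) ^ 2 := by
        push_cast
        have e1 : (1 : ℝ) ≤ (T : ℝ) ^ 2 := one_le_pow₀ hTr
        have e2 : (66 * (T : ℝ)) ^ 2 = 4356 * (T : ℝ) ^ 2 := by ring
        rw [e2]
        linarith
      have h4 := Real.log_le_log (by positivity) h3
      rw [Real.log_pow] at h4
      push_cast at h4 ⊢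
      linarith
    have hlB : Real.log ((32 * T ^ 2 + 1 : ℕ) : ℝ) ≤ 2 * l := by
      refine le_trans (Real.log_le_log (by positivity) ?_) hlA
      exact_mod_cast (by omega : 32 * T ^ 2 + 1 ≤ 64 * T ^ 2 + 2)
    have hlA0 : 0 ≤ Real.log ((64 * T ^ 2 + 2 : ℕ) : ℝ) := Real.log_natCast_nonneg _
    have hlB0 : 0 ≤ Real.log ((32 * T ^ 2 + 1 : ℕ) : ℝ) := Real.log_natCast_nonneg _
    have hA3 : (Real.log ((64 * T ^ 2 + 2 : ℕ) : ℝ) + 5) ^ 3 ≤ 343 * l ^ 3 := by
      calc (Real.log ((64 * T ^ 2 + 2 : ℕ) : ℝ) + 5) ^ 3 ≤ (7 * l) ^ 3 :=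
            pow_le_pow_left₀ (by linarith) (by linarith) 3
        _ = _ := by ring
    have hB3 : Real.log ((32 * T ^ 2 + 1 : ℕ) : ℝ) ^ 3 ≤ 8 * l ^ 3 := by
      calc Real.log ((32 * T ^ 2 + 1 : ℕ) : ℝ) ^ 3 ≤ (2 * l) ^ 3 := pow_le_pow_left₀ hlB0 hlB 3
        _ = _ := by ring
    have hD : (20 * K + 193) * Real.log ((32 * T ^ 2 + 1 : ℕ) : ℝ) ^ 3 +
        3 * (2 * K + 13) * (Real.log ((64 * T ^ 2 + 2 : ℕ) : ℝ) + 5) ^ 3 ≤
        (2218 * K + 14921) * l ^ 3 := by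
      have e1 := mul_le_mul_of_nonneg_left hB3 (show 0 ≤ 20 * K + 193 by positivity)
      have e2 := mul_le_mul_of_nonneg_left hA3 (show 0 ≤ 3 * (2 * K + 13) by positivity)
      linarith
    have hpow : (2 : ℝ) ^ j ≤ 1584 * (1 + r ^ 2 / n) := by
      have h3 : n ≤ 264 * (R * T) := by
        calc n ≤ (T + 1) * (132 * R) := hTlt.le
          _ ≤ (2 * T) * (132 * R) := Nat.mul_le_mul_right _ (by omega)
          _ = _ := by ring
      have h4 : (n : ℝ) ≤ 264 * (R * T) := by exact_mod_cast h3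
      have h5 : (2 : ℝ) ^ j * T ≤ R := by exact_mod_cast hjT
      have hRr : (0 : ℝ) ≤ R := Nat.cast_nonneg _
      have h6 : (2 : ℝ) ^ j * n ≤ 264 * (R * R) := by
        calc (2 : ℝ) ^ j * n ≤ 2 ^ j * (264 * (R * T)) := by gcongr
          _ = 264 * (R * (2 ^ j * T)) := by ring
          _ ≤ 264 * (R * R) := by gcongr
      have h7 : (2 : ℝ) ^ j ≤ 1584 * ((n + r ^ 2) / n) := by
        rw [mul_div_assoc', le_div_iff₀ hn0]
        linarith
      rwa [add_div, div_self hn0.ne'] at h7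
    have hcost : 2 ^ j * ((20 * K + 193) * Real.log ((32 * T ^ 2 + 1 : ℕ) : ℝ) ^ 3 +
        3 * (2 * K + 13) * (Real.log ((64 * T ^ 2 + 2 : ℕ) : ℝ) + 5) ^ 3) ≤
        1584 * (2218 * K + 14921) * E := by
      calc _ ≤ (1584 * (1 + r ^ 2 / n)) * ((2218 * K + 14921) * l ^ 3) := by
            apply mul_le_mul hpow hD _ (by positivity)
            positivity
        _ = _ := by rw [hE]; ring
    have h3 : (2 * K + 9) * Real.log n ^ 3 ≤ (2 * K + 9) * (64 * E) :=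
      mul_le_mul_of_nonneg_left hlg (by positivity)
    have h4 : 0 ≤ (64 * K + 2 * 104544) * E := by positivity
    linarith

end Pool.Agent.TH262.SawE
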