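import Pool.Agent.TH262.SawE.Dbl

/-!
The end point of the planar self-avoiding walk at every lattice point, in words.
-/

set_option autoImplicit false

namespace Pool.Agent.TH262.SawE

open H981 Finset Pool.Agent.TH795.EP

theorem log3_le {y : ℝ} (hy : 1 ≤ y) : Real.log y ^ 3 ≤ 6 * y := by
  have h1 := Real.pow_div_factorial_le_exp (x := Real.log y) (Real.log_nonneg hy) 3
  rw [Real.exp_log (by linarith), div_le_iff₀ (by positivity)] at h1
  have : ((Nat.factorial 3 : ℕ) : ℝ) = 6 := by norm_num [Nat.factorial]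
  rw [this] at h1
  linarith

theorem log_cube_ge {N : ℕ} (hN : 2 ≤ N) : 1 ≤ 4 * Real.log N ^ 3 := by
  have h1 := log_ge hN
  have h2 : (0.69 : ℝ) ≤ Real.log 2 := by linarith [Real.log_two_gt_d9]
  have h3 : (0.69 : ℝ) ^ 3 ≤ Real.log N ^ 3 := pow_le_pow_left₀ (by norm_num) (h2.trans h1) 3
  norm_num at h3
  linarith

/-- the logarithm of `n` at the scale `N` -/
theorem log_blob {n N : ℕ} (hN : 2 ≤ N) (hn : N ≤ n) :
    Real.log n ^ 3 ≤ 100 * ((n : ℝ) / N * Real.log N ^ 3) := by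
  have hN0 : (0 : ℝ) < N := by exact_mod_cast (by omega : 0 < N)
  have hn0 : (0 : ℝ) < n := by exact_mod_cast (by omega : 0 < n)
  obtain ⟨z, hz⟩ : ∃ z, z = (n : ℝ) / N := ⟨_, rfl⟩
  have hz1 : 1 ≤ z := by
    rw [hz, le_div_iff₀ hN0, one_mul]
    exact_mod_cast hn
  have hlog : Real.log n = Real.log N + Real.log z := by
    rw [hz, Real.log_div hn0.ne' hN0.ne']
    ring
  have hlz := Real.log_nonneg hz1
  have hlN := (log_pos' hN).le
  have h1 := log3_le hz1
  have h2 := log_cube_ge hN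
  rw [← hz, hlog]
  obtain ⟨A, hA⟩ : ∃ A, A = Real.log (N : ℝ) := ⟨_, rfl⟩
  obtain ⟨Z, hZ⟩ : ∃ Z, Z = Real.log z := ⟨_, rfl⟩
  rw [← hA] at h2 hlN ⊢
  rw [← hZ] at h1 hlz ⊢
  have h3 : (A + Z) ^ 3 ≤ 4 * (A ^ 3 + Z ^ 3) := by
    nlinarith [mul_nonneg (add_nonneg hlN hlz) (sq_nonneg (A - Z))]
  have hA3 : 0 ≤ A ^ 3 := by positivity
  have h4 : A ^ 3 ≤ z * A ^ 3 := le_mul_of_one_le_left hA3 hz1
  have h5 : z ≤ z * (4 * A ^ 3) := le_mul_of_one_le_right (by linarith) h2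
  nlinarith

theorem mu_le_four : mu ≤ 4 := by
  have h4 := mu_pow_le 1
  rw [← c_eq, pow_one] at h4
  have : c 1 ≤ 4 := by
    unfold c
    calc (fs Saw 1).card ≤ (univ.image (fun s : St => [s])).card := by
          apply Finset.card_le_card
          intro w hw
          rw [mem_fs] at hw
          obtain ⟨s, rfl⟩ := List.length_eq_one_iff.1 hw.2
          exact Finset.mem_image_of_mem _ (mem_univ s)
      _ ≤ (univ : Finset St).card := Finset.card_image_le
      _ = 4 := rfl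
  have h5 : (c 1 : ℝ) ≤ 4 := by exact_mod_cast this
  linarith

theorem c_le_exp {n : ℕ} {K : ℝ} (hK : Up n K) :
    (c n : ℝ) ≤ Real.exp (2 * n + K * Real.log n ^ 3) := by
  refine (hK n le_rfl).trans ?_
  rw [Real.exp_add]
  unfold q
  apply mul_le_mul_of_nonneg_right _ (Real.exp_pos _).le
  have h1 : mu ^ n ≤ 4 ^ n := pow_le_pow_left₀ mu_pos.le mu_le_four n
  refine h1.trans ?_
  rw [show (2 : ℝ) * n = n * 2 by ring, Real.exp_nat_mul]
  apply pow_le_pow_left₀ (by norm_num)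
  have h2 : (2 : ℝ) = 1 + 1 := by norm_num
  rw [h2, Real.exp_add]
  nlinarith [Real.exp_one_gt_d9]

/-- the trivial bound -/
theorem trivial_bound {n : ℕ} {K : ℝ} (hK : Up n K) {x y : ℤ} (hxy : (x, y) ≠ (0, 0))
    (hpar : (x + y - n) % 2 = 0) (hn : |x| + |y| ≤ n) {B : ℝ}
    (hB : 2 * n + K * Real.log n ^ 3 ≤ B) : Real.exp (-B) * c n ≤ a n x y := by
  have h1 : (1 : ℝ) ≤ a n x y := by exact_mod_cast one_le_a hxy hpar hn
  refine le_trans ?_ h1
  calc Real.exp (-B) * c n ≤ Real.exp (-B) * Real.exp (2 * n + K * Real.log n ^ 3) :=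
        mul_le_mul_of_nonneg_left (c_le_exp hK) (Real.exp_pos _).le
    _ = Real.exp (-B + (2 * n + K * Real.log n ^ 3)) := (Real.exp_add _ _).symm
    _ ≤ Real.exp 0 := Real.exp_le_exp.2 (by linarith)
    _ = 1 := Real.exp_zero

theorem abs_sum_le {x y : ℤ} {R : ℝ} (hR : 0 ≤ R) (h : (x : ℝ) ^ 2 + (y : ℝ) ^ 2 ≤ R ^ 2) :
    |(x : ℝ)| + |(y : ℝ)| ≤ 2 * R ∧ |(x : ℝ)| ≤ R ∧ |(y : ℝ)| ≤ R := by
  have h1 : |(x : ℝ)| ≤ R := abs_le_of_sq_le_sq (by nlinarith [sq_nonneg (y : ℝ)]) hR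
  have h2 : |(y : ℝ)| ≤ R := abs_le_of_sq_le_sq (by nlinarith [sq_nonneg (x : ℝ)]) hR
  exact ⟨by linarith, h1, h2⟩

/-- **Blobs.** -/
theorem blob_words : ∃ K : ℝ, 0 ≤ K ∧ ∀ n N : ℕ, 2 ≤ N → N ≤ n → ∀ x y : ℤ, (x, y) ≠ (0, 0) →
    (x + y - n) % 2 = 0 → 40000 * (N : ℝ) ^ 2 * ((x : ℝ) ^ 2 + (y : ℝ) ^ 2) ≤ (n : ℝ) ^ 2 * ms N →
    Real.exp (-(K * ((n : ℝ) / N * Real.log N ^ 3))) * c n ≤ a n x y := by
  obtain ⟨K, hK0, hup', har⟩ := exists_K
  have hup : ∀ n : ℕ, 2 ≤ n → Up n K := hup'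
  refine ⟨(408 * K + 2745) + 100 * (2 * K + 9) + (100 * K + 96), by positivity, ?_⟩
  intro n N hN hNn x y hxy hpar hms
  have hN0 : (0 : ℝ) < N := by exact_mod_cast (by omega : 0 < N)
  have hn0 : (0 : ℝ) < n := by exact_mod_cast (by omega : 0 < n)
  have hlb := log_blob hN hNn
  have hl1 := log_cube_ge hN
  obtain ⟨E, hE⟩ : ∃ E, E = (n : ℝ) / N * Real.log N ^ 3 := ⟨_, rfl⟩
  rw [← hE] at hlb ⊢
  have hE0 : 0 ≤ E := by
    rw [hE]
    have := (log_pos' hN).le
    positivity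
  have hz1 : 1 ≤ (n : ℝ) / N := by
    rw [le_div_iff₀ hN0, one_mul]
    exact_mod_cast hNn
  have hzE : (n : ℝ) / N ≤ 4 * E := by
    rw [hE]
    nlinarith
  -- the ends
  obtain ⟨S, hS⟩ : ∃ S, S = Real.sqrt (ms N) := ⟨_, rfl⟩
  have hms0 : 0 ≤ ms N := by linarith [one_le_ms (by omega : 1 ≤ N)]
  have hS0 : 0 ≤ S := by rw [hS]; exact Real.sqrt_nonneg _
  have hS2 : S ^ 2 = ms N := by rw [hS]; exact Real.sq_sqrt hms0
  have hSN : S ≤ N := by
    have := ms_le N
    rw [← hS2] at this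
    exact le_of_sq_le_sq this hN0.le
  have hR : (x : ℝ) ^ 2 + (y : ℝ) ^ 2 ≤ ((n : ℝ) / N * S / 200) ^ 2 := by
    rw [div_pow, mul_pow, div_pow, hS2]
    rw [le_div_iff₀ (by norm_num), div_mul_eq_mul_div, le_div_iff₀ (by positivity)]
    linarith
  obtain ⟨hsum, hax, hay⟩ := abs_sum_le (by positivity) hR
  rcases Nat.lt_or_ge N 12 with h12 | h12
  · -- small blobs
    have hK := hup n (by omega)
    apply trivial_bound hK hxy hpar
    · have h1 : |(x : ℝ)| + |(y : ℝ)| ≤ n := by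
        refine hsum.trans ?_
        have h2 : (n : ℝ) / N * S ≤ n / N * N := by gcongr
        rw [div_mul_cancel₀ _ hN0.ne'] at h2
        linarith
      exact_mod_cast h1
    · have h1 : (n : ℝ) ≤ 48 * E := by
        have h2 : (n : ℝ) = n / N * N := by field_simp
        have h3 : (N : ℝ) ≤ 12 := by exact_mod_cast h12.le
        calc (n : ℝ) = n / N * N := h2
          _ ≤ n / N * 12 := by gcongr
          _ ≤ 4 * E * 12 := by gcongr
          _ = _ := by ring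
      have h2 : K * Real.log n ^ 3 ≤ K * (100 * E) := mul_le_mul_of_nonneg_left hlb hK0
      have h3 : 0 ≤ (408 * K + 2745) * E := by positivity
      have h4 : 0 ≤ 100 * (2 * K + 9) * E := by positivity
      linarith
  · obtain ⟨T, hT⟩ : ∃ T, T = ⌊S / 100⌋₊ := ⟨_, rfl⟩
    have hT1 : (T : ℝ) ≤ S / 100 := by rw [hT]; exact Nat.floor_le (by positivity)
    have hT2 : S / 100 < T + 1 := by rw [hT]; exact Nat.lt_floor_add_one _
    obtain ⟨j, hj⟩ : ∃ j, j = Nat.log 2 (n / N) := ⟨_, rfl⟩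
    have hq1 : 1 ≤ n / N := (Nat.one_le_div_iff (by omega)).2 hNn
    have hj1 : 2 ^ j ≤ n / N := by rw [hj]; exact Nat.pow_log_le_self 2 (by omega)
    have hj2 : n / N < 2 ^ (j + 1) := by rw [hj]; exact Nat.lt_pow_succ_log_self (by norm_num) _
    have hj3 : 2 ^ j * N ≤ n := (Nat.le_div_iff_mul_le (by omega)).1 hj1
    have hj4 : n < 2 ^ (j + 1) * N := (Nat.div_lt_iff_lt_mul (by omega)).1 hj2
    have hj4r : (n : ℝ) / N ≤ 2 * 2 ^ j := by
      rw [div_le_iff₀ hN0]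
      have : (n : ℝ) ≤ ((2 ^ (j + 1) * N : ℕ) : ℝ) := by exact_mod_cast hj4.le
      refine this.trans (le_of_eq ?_)
      push_cast
      ring
    have hj1r : (2 : ℝ) ^ j ≤ n / N := by
      rw [le_div_iff₀ hN0]
      exact_mod_cast hj3
    have hcov := (cov_ms hK0 hN (hup N hN) (Tm := T) (by rw [← hS2]; nlinarith)).iter hK0 hup
      (by omega) j
    have hp2 : (0 : ℝ) < 2 ^ j := by positivity
    have hrad : (n : ℝ) / N * S / 200 ≤ 2 ^ j * (2 * T + 1) := by
      have h1 : (n : ℝ) / N * (S / 200) ≤ 2 * 2 ^ j * ((T + 1) / 2) := by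
        have h2 : S / 200 ≤ ((T : ℝ) + 1) / 2 := by linarith
        have h3 : 0 ≤ S / 200 := by positivity
        calc (n : ℝ) / N * (S / 200) ≤ 2 * 2 ^ j * (S / 200) :=
              mul_le_mul_of_nonneg_right hj4r h3
          _ ≤ _ := mul_le_mul_of_nonneg_left h2 (by positivity)
      have hT0 : (0 : ℝ) ≤ T := Nat.cast_nonneg _
      nlinarith [mul_nonneg hp2.le hT0]
    obtain ⟨m, hm, h1⟩ := hcov x y
      (by
        have h5 := hax.trans hrad
        have h6 : ((|x| : ℤ) : ℝ) ≤ (((2 ^ j * (2 * T + 1) : ℕ) : ℤ) : ℝ) := by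
          push_cast
          exact h5
        exact_mod_cast h6)
      (by
        have h5 := hay.trans hrad
        have h6 : ((|y| : ℤ) : ℝ) ≤ (((2 ^ j * (2 * T + 1) : ℕ) : ℤ) : ℝ) := by
          push_cast
          exact h5
        exact_mod_cast h6)
    have hmn : m + 4 ≤ n := by
      have h2 : 12 * 2 ^ j ≤ n := by
        calc 12 * 2 ^ j = 2 ^ j * 12 := by ring
          _ ≤ 2 ^ j * N := Nat.mul_le_mul_left _ h12
          _ ≤ n := hj3
      have h3 : 2 ^ j * (12 * (N / 12)) ≤ n :=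
        (Nat.mul_le_mul_left _ (Nat.mul_div_le N 12)).trans hj3
      have h4 : 2 ^ j * (4 * (N / 12) + 2) = 4 * (2 ^ j * (N / 12)) + 2 * 2 ^ j := by ring
      have h5 : 2 ^ j * (12 * (N / 12)) = 12 * (2 ^ j * (N / 12)) := by ring
      omega
    have h2 := fill (by omega) (hup n (by omega)) (har n (by omega)) hmn hxy hpar h1
    refine le_trans (mul_le_mul_of_nonneg_right ?_ (Nat.cast_nonneg _)) h2
    unfold q
    rw [← Real.exp_add]
    apply Real.exp_le_exp.2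
    have hlN : 0 < Real.log N := log_pos' hN
    have hlM : Real.log ((4 * (N / 12) + 2 : ℕ) : ℝ) + 5 ≤ 4 * Real.log N := by
      have e1 : Real.log ((4 * (N / 12) + 2 : ℕ) : ℝ) ≤ Real.log N := by
        apply Real.log_le_log
        · exact_mod_cast (by omega : 0 < 4 * (N / 12) + 2)
        · exact_mod_cast (by omega : 4 * (N / 12) + 2 ≤ N)
      have e2 : 3 * Real.log 2 ≤ Real.log N := by
        have e3 : Real.log ((2 : ℝ) ^ 3) ≤ Real.log N := by
          apply Real.log_le_log (by norm_num)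
          have : ((8 : ℕ) : ℝ) ≤ N := by exact_mod_cast (by omega : 8 ≤ N)
          push_cast at this
          linarith
        rw [Real.log_pow] at e3
        exact_mod_cast e3
      have e4 : (0.69 : ℝ) ≤ Real.log 2 := by linarith [Real.log_two_gt_d9]
      linarith
    have hlM0 : 0 ≤ Real.log ((4 * (N / 12) + 2 : ℕ) : ℝ) + 5 := by
      have : 0 ≤ Real.log ((4 * (N / 12) + 2 : ℕ) : ℝ) := Real.log_natCast_nonneg _
      linarith
    have hc3 : (Real.log ((4 * (N / 12) + 2 : ℕ) : ℝ) + 5) ^ 3 ≤ 64 * Real.log N ^ 3 := by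
      calc (Real.log ((4 * (N / 12) + 2 : ℕ) : ℝ) + 5) ^ 3 ≤ (4 * Real.log N) ^ 3 :=
            pow_le_pow_left₀ hlM0 hlM 3
        _ = _ := by ring
    have hD : (24 * K + 249) * Real.log N ^ 3 +
        3 * (2 * K + 13) * (Real.log ((4 * (N / 12) + 2 : ℕ) : ℝ) + 5) ^ 3 ≤
        (408 * K + 2745) * Real.log N ^ 3 := by
      have := mul_le_mul_of_nonneg_left hc3 (show 0 ≤ 3 * (2 * K + 13) by positivity)
      linarith
    have hcost : 2 ^ j * ((24 * K + 249) * Real.log N ^ 3 +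
        3 * (2 * K + 13) * (Real.log ((4 * (N / 12) + 2 : ℕ) : ℝ) + 5) ^ 3) ≤
        (408 * K + 2745) * E := by
      calc _ ≤ (n : ℝ) / N * ((408 * K + 2745) * Real.log N ^ 3) := by
            apply mul_le_mul hj1r hD _ (by positivity)
            positivity
        _ = _ := by rw [hE]; ring
    have h3 : (2 * K + 9) * Real.log n ^ 3 ≤ (2 * K + 9) * (100 * E) :=
      mul_le_mul_of_nonneg_left hlb (by positivity)
    have h4 : 0 ≤ (100 * K + 96) * E := by positivity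
    linarith

end Pool.Agent.TH262.SawE
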