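import Pool.Agent.TH795.EP.Fin

/-!
Doubling of the region reached by self-avoiding words, and filling up with a polygon.
-/

set_option autoImplicit false

namespace Pool.Agent.TH262.SawE

open H981 Finset Pool.Agent.TH795.EP

/-- all points of the square of side `2 T` are reached with at most `M` steps -/
def Cov (M T : ℕ) (B : ℝ) : Prop :=
  ∀ x y : ℤ, |x| ≤ T → |y| ≤ T → ∃ m ≤ M, mu ^ m * Real.exp (-B) ≤ a m x y

theorem Cov.mono {M T : ℕ} {B B' : ℝ} (h : Cov M T B) (hB : B ≤ B') : Cov M T B' := by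
  intro x y hx hy
  obtain ⟨m, hm, h1⟩ := h x y hx hy
  refine ⟨m, hm, le_trans ?_ h1⟩
  have := pow_pos mu_pos m
  have h2 : Real.exp (-B') ≤ Real.exp (-B) := Real.exp_le_exp.2 (by linarith)
  gcongr

theorem Cov.double {M T : ℕ} {B K : ℝ} (h : Cov M T B) (hM : 1 ≤ M) (hK : Up (2 * M) K) :
    Cov (2 * M) (2 * T) (2 * B + (2 * K + 13) * Real.log ((2 * M : ℕ) : ℝ) ^ 3) := by
  intro x y hx hy
  have hn : 2 ≤ 2 * M := by omega
  have hl := log_pos' hn
  have hl3 : 0 < Real.log ((2 * M : ℕ) : ℝ) ^ 3 := pow_pos hl 3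
  push_cast at hx hy
  rw [abs_le] at hx hy
  obtain ⟨m1, hm1, h1⟩ := h (x / 2) (y / 2) (by rw [abs_le]; omega) (by rw [abs_le]; omega)
  obtain ⟨m2, hm2, h2⟩ := h (x - x / 2) (y - y / 2) (by rw [abs_le]; omega)
    (by rw [abs_le]; omega)
  have e : Real.exp (-B) = q (2 * M) (-(B / Real.log ((2 * M : ℕ) : ℝ) ^ 3)) := by
    unfold q
    congr 1
    field_simp
  rw [e] at h1 h2
  obtain ⟨m, hm, h3⟩ := glue_good hn hK (by omega) (by omega) h1 h2
  refine ⟨m, by omega, ?_⟩
  rw [add_sub_cancel, add_sub_cancel] at h3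
  refine le_trans (le_of_eq ?_) h3
  unfold q
  congr 2
  field_simp
  ring

theorem Cov.iter {K : ℝ} (hK0 : 0 ≤ K) (hup : ∀ n : ℕ, 2 ≤ n → Up n K) {M T : ℕ} (hM : 1 ≤ M)
    {B : ℝ} (h : Cov M T B) (j : ℕ) : Cov (2 ^ j * M) (2 ^ j * T)
      (2 ^ j * (B + 3 * (2 * K + 13) * (Real.log M + 5) ^ 3)) := by
  have key : ∀ j : ℕ, Cov (2 ^ j * M) (2 ^ j * T)
      (2 ^ j * (B + 3 * (2 * K + 13) * (Real.log M + 5) ^ 3) -
        3 * (2 * K + 13) * (Real.log ((2 ^ j * M : ℕ) : ℝ) + 5) ^ 3) := by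
    intro j
    induction j with
    | zero =>
      simp only [pow_zero, one_mul]
      refine h.mono ?_
      linarith
    | succ j ih =>
      have hM' : 1 ≤ 2 ^ j * M := Nat.one_le_iff_ne_zero.2 (by positivity)
      have h1 := ih.double hM' (hup (2 * (2 ^ j * M)) (by omega))
      have e1 : 2 * (2 ^ j * M) = 2 ^ (j + 1) * M := by ring
      have e2 : 2 * (2 ^ j * T) = 2 ^ (j + 1) * T := by ring
      have hL0 : 0 ≤ Real.log ((2 ^ j * M : ℕ) : ℝ) := Real.log_natCast_nonneg _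
      have hLe : Real.log ((2 * (2 ^ j * M) : ℕ) : ℝ) =
          Real.log 2 + Real.log ((2 ^ j * M : ℕ) : ℝ) := by
        have : (((2 ^ j * M : ℕ)) : ℝ) ≠ 0 := by
          have : 0 < 2 ^ j * M := hM'
          exact_mod_cast this.ne'
        rw [← Real.log_mul (by norm_num) this]
        congr 1
        push_cast
        ring
      rw [← e1, ← e2]
      refine h1.mono ?_
      rw [hLe]
      obtain ⟨L, hL⟩ : ∃ L, L = Real.log ((2 ^ j * M : ℕ) : ℝ) := ⟨_, rfl⟩
      obtain ⟨l, hl⟩ : ∃ l, l = Real.log 2 := ⟨_, rfl⟩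
      rw [← hL] at hL0 ⊢
      rw [← hl]
      have hl0 : 0 ≤ l := by rw [hl]; exact Real.log_nonneg (by norm_num)
      have hl7 : l ≤ 7 / 10 := by
        rw [hl]; linarith [Real.log_two_lt_d9]
      obtain ⟨D, hD⟩ : ∃ D, D = B + 3 * (2 * K + 13) * (Real.log M + 5) ^ 3 := ⟨_, rfl⟩
      rw [← hD]
      have hC : 0 ≤ 2 * K + 13 := by linarith
      have h3 : 3 * (l + L + 5) ^ 3 + (l + L) ^ 3 ≤ 6 * (L + 5) ^ 3 := by
        have a1 : (l + L + 5) ^ 3 ≤ (7 / 10 + L + 5) ^ 3 := by gcongr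
        have a2 : (l + L) ^ 3 ≤ (7 / 10 + L) ^ 3 := by gcongr
        nlinarith [mul_nonneg hL0 hL0, mul_nonneg (mul_nonneg hL0 hL0) hL0]
      have h4 := mul_le_mul_of_nonneg_left h3 hC
      have h5 : (2 : ℝ) ^ (j + 1) = 2 * 2 ^ j := by ring
      rw [h5]
      linarith [h4]
  refine (key j).mono ?_
  have : 0 ≤ Real.log ((2 ^ j * M : ℕ) : ℝ) := Real.log_natCast_nonneg _
  have : 0 ≤ 3 * (2 * K + 13) * (Real.log ((2 ^ j * M : ℕ) : ℝ) + 5) ^ 3 := by positivity
  linarith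

theorem cov_ms {K : ℝ} (hK0 : 0 ≤ K) {N : ℕ} (hN : 2 ≤ N) (hK : Up N K) {Tm : ℕ}
    (hTm : 10000 * (Tm : ℝ) ^ 2 ≤ ms N) :
    Cov (4 * (N / 12) + 2) (2 * Tm + 1) ((24 * K + 249) * Real.log N ^ 3) := by
  intro x y hx hy
  have hR := reach_ms hN hK (Tm := (Tm : ℤ)) (by exact_mod_cast hTm)
  obtain ⟨m, hm, h1⟩ := all_good hN hK0 (by positivity) hK (N := N / 12) (by omega) hR
    (x := x) (y := y) (by push_cast at hx; exact hx) (by push_cast at hy; exact hy)
  refine ⟨m, hm, le_trans (le_of_eq ?_) h1⟩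
  unfold q
  congr 2
  ring

theorem cov_box {K : ℝ} (hK0 : 0 ≤ K) (hup : ∀ n : ℕ, 2 ≤ n → Up n K) {T : ℕ} (hT : 1 ≤ T) :
    Cov (64 * T ^ 2 + 2) (2 * T + 1)
      ((20 * K + 193) * Real.log ((32 * T ^ 2 + 1 : ℕ) : ℝ) ^ 3) := by
  intro x y hx hy
  have hn : 2 ≤ 32 * T ^ 2 + 1 := by nlinarith
  have hK := hup _ hn
  have hR := reach_box hn hK (N := 16 * T ^ 2) (by omega) hT le_rfl
  obtain ⟨m, hm, h1⟩ := all_good hn hK0 (by positivity) hK (N := 16 * T ^ 2) (by omega) hR
    (x := x) (y := y) (by push_cast at hx; exact hx) (by push_cast at hy; exact hy)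
  refine ⟨m, by omega, le_trans (le_of_eq ?_) h1⟩
  unfold q
  congr 2
  ring

/-- filling up with a polygon -/
theorem fill {K : ℝ} {n : ℕ} (hn : 2 ≤ n) (hK : Up n K)
    (har : ∀ j : ℕ, 2 ≤ j → j ≤ n → mu ^ (2 * j) * q n (-K) ≤ ar (2 * j - 1)) {m : ℕ}
    (hmn : m + 4 ≤ n) {x y : ℤ} (hxy : (x, y) ≠ (0, 0)) (hpar : (x + y - n) % 2 = 0) {B : ℝ}
    (h : mu ^ m * Real.exp (-B) ≤ a m x y) :
    q n (-(2 * K + 9)) * Real.exp (-B) * c n ≤ a n x y := by
  have hmu := mu_pos
  have hpos : 0 < a m x y := by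
    have : (0 : ℝ) < a m x y := lt_of_lt_of_le (mul_pos (pow_pos hmu m) (Real.exp_pos _)) h
    exact_mod_cast this
  obtain ⟨w, _, hwx, hwy, hwl⟩ := exists_of_a hpos
  have hp := parity w
  rw [hwx, hwy, hwl] at hp
  have hm1 : 1 ≤ m := by
    by_contra hcon
    have : w = [] := List.length_eq_zero_iff.1 (by omega)
    subst this
    simp at hwx hwy
    exact hxy (by rw [← hwx, ← hwy])
  obtain ⟨j, hj⟩ : ∃ j : ℕ, n = m + 2 * j := ⟨(n - m) / 2, by omega⟩
  have hj2 : 2 ≤ j := by omega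
  have h2 := har j hj2 (by omega)
  have h3 := a_mul_ar hm1 (2 * j - 1) x y
  have e : m + (2 * j - 1) + 1 = n := by omega
  rw [e] at h3
  have h3' : (a m x y : ℝ) * ar (2 * j - 1) ≤ 4 * m * a n x y := by exact_mod_cast h3
  have h4 : (4 : ℝ) * m ≤ q n 9 := by
    have h5 := pow_le_q hn 3
    norm_num at h5
    refine le_trans ?_ h5
    have h6 : 4 * m ≤ n ^ 3 := by
      have h4n : 4 ≤ n := by omega
      calc 4 * m ≤ n * n := Nat.mul_le_mul h4n (by omega)
        _ ≤ n * n * n := Nat.le_mul_of_pos_right _ (by omega)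
        _ = n ^ 3 := by ring
    exact_mod_cast h6
  have ha0 : (0 : ℝ) ≤ a n x y := Nat.cast_nonneg _
  have hlow : mu ^ n * (Real.exp (-B) * q n (-K)) ≤ q n 9 * a n x y := by
    have g1 := Real.exp_pos (-B)
    have g2 := q_pos n (-K)
    calc mu ^ n * (Real.exp (-B) * q n (-K)) =
          (mu ^ m * Real.exp (-B)) * (mu ^ (2 * j) * q n (-K)) := by
          rw [show mu ^ m * Real.exp (-B) * (mu ^ (2 * j) * q n (-K)) =
            (mu ^ m * mu ^ (2 * j)) * (Real.exp (-B) * q n (-K)) by ring, ← pow_add, ← hj]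
      _ ≤ (a m x y : ℝ) * ar (2 * j - 1) := by
          have := pow_pos hmu (2 * j)
          exact mul_le_mul h h2 (by positivity) (Nat.cast_nonneg _)
      _ ≤ 4 * m * a n x y := h3'
      _ ≤ _ := mul_le_mul_of_nonneg_right h4 ha0
  have hcn := hK n le_rfl
  have g := q_pos n (-(2 * K + 9))
  have g3 := Real.exp_pos (-B)
  have g9 := q_pos n (-9)
  calc q n (-(2 * K + 9)) * Real.exp (-B) * c n
      ≤ q n (-(2 * K + 9)) * Real.exp (-B) * (mu ^ n * q n K) := by gcongr
    _ = (mu ^ n * (Real.exp (-B) * q n (-K))) * q n (-9) := by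
        have e2 : q n (-(2 * K + 9)) = q n (-K) * (q n (-K) * q n (-9)) := by
          rw [q_mul, q_mul]
          congr 1
          ring
        rw [e2, show q n (-K) * (q n (-K) * q n (-9)) * Real.exp (-B) * (mu ^ n * q n K) =
          (q n K * q n (-K)) * (mu ^ n * (Real.exp (-B) * q n (-K)) * q n (-9)) by ring,
          q_cancel, one_mul]
    _ ≤ (q n 9 * a n x y) * q n (-9) := mul_le_mul_of_nonneg_right hlow g9.le
    _ = a n x y * (q n 9 * q n (-9)) := by ring
    _ = a n x y := by rw [q_cancel, mul_one]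

/-! ### at least one walk -/

theorem saw_dir {w : List St} (h : ∀ s ∈ w, s = St.E ∨ s = St.N) : Saw w := by
  intro m hm h1 h2
  have key : ∀ m : List St, (∀ s ∈ m, s = St.E ∨ s = St.N) → dx m + dy m = m.length := by
    intro m
    induction m with
    | nil => simp
    | cons s m ih =>
      intro h
      have h1 := ih fun s hs => h s (List.mem_cons_of_mem _ hs)
      rw [dx_cons, dy_cons, List.length_cons]
      push_cast
      rcases h s List.mem_cons_self with rfl | rfl <;> simp <;> omega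
  have h3 := key m fun s hs => h s (hm.subset hs)
  rw [h1, h2] at h3
  exact List.length_eq_zero_iff.1 (by omega)

theorem one_le_a_abs (x y : ℤ) : 1 ≤ a (x.natAbs + y.natAbs) x y := by
  rw [← a_abs]
  unfold a
  rw [Nat.succ_le_iff, Finset.card_pos]
  have hdxE : ∀ k : ℕ, dx (List.replicate k St.E) = k ∧ dy (List.replicate k St.E) = 0 := by
    intro k
    induction k with
    | zero => simp
    | succ k ih =>
      rw [List.replicate_succ, dx_cons, dy_cons, ih.1, ih.2]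
      constructor
      · simp; ring
      · simp
  have hdxN : ∀ k : ℕ, dx (List.replicate k St.N) = 0 ∧ dy (List.replicate k St.N) = k := by
    intro k
    induction k with
    | zero => simp
    | succ k ih =>
      rw [List.replicate_succ, dx_cons, dy_cons, ih.1, ih.2]
      constructor
      · simp
      · simp; ring
  refine ⟨List.replicate x.natAbs St.E ++ List.replicate y.natAbs St.N, mem_fs.2 ⟨⟨?_, ?_, ?_⟩, ?_⟩⟩
  · apply saw_dir
    intro s hs
    rw [List.mem_append] at hs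
    rcases hs with hs | hs
    · left; exact List.eq_of_mem_replicate hs
    · right; exact List.eq_of_mem_replicate hs
  · rw [dx_append, (hdxE _).1, (hdxN _).1]; simp
  · rw [dy_append, (hdxE _).2, (hdxN _).2]; simp
  · simp

theorem one_le_ar {j : ℕ} (hj : 1 ≤ j) : 1 ≤ ar (2 * j - 1) := by
  rcases Nat.lt_or_ge j 2 with h | h
  · have : j = 1 := by omega
    subst this
    unfold ar
    rw [Nat.succ_le_iff, Finset.card_pos]
    refine ⟨[St.E], mem_fs.2 ⟨⟨?_, ?_, ?_, ?_⟩, rfl⟩⟩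
    · apply saw_dir
      intro s hs
      simp at hs
      left; exact hs
    · simp
    · simp
    · intro k
      unfold path
      rcases k with _ | k
      · simp
      · simp
  · obtain ⟨K, hK0, _, har⟩ := exists_K
    have h1 := har j h j h le_rfl
    have h2 : (0 : ℝ) < ar (2 * j - 1) :=
      lt_of_lt_of_le (mul_pos (pow_pos mu_pos _) (q_pos _ _)) h1
    have h3 : 0 < ar (2 * j - 1) := by exact_mod_cast h2
    exact h3

theorem one_le_a {n : ℕ} {x y : ℤ} (hxy : (x, y) ≠ (0, 0)) (hpar : (x + y - n) % 2 = 0)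
    (hn : |x| + |y| ≤ n) : 1 ≤ a n x y := by
  have h1 := one_le_a_abs x y
  obtain ⟨m, hm⟩ : ∃ m, m = x.natAbs + y.natAbs := ⟨_, rfl⟩
  rw [← hm] at h1
  have hmn : m ≤ n := by
    have e1 : (x.natAbs : ℤ) = |x| := Int.natCast_natAbs x
    have e2 : (y.natAbs : ℤ) = |y| := Int.natCast_natAbs y
    omega
  have hm1 : 1 ≤ m := by
    by_contra hcon
    have h2 : x = 0 := by omega
    have h3 : y = 0 := by omega
    exact hxy (by rw [h2, h3])
  have hpar' : ((m : ℤ) - n) % 2 = 0 := by omega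
  obtain ⟨j, hj⟩ : ∃ j : ℕ, n = m + 2 * j := ⟨(n - m) / 2, by omega⟩
  rcases Nat.eq_zero_or_pos j with h0 | h0
  · rw [h0, mul_zero, add_zero] at hj
    rw [hj]; exact h1
  · have h2 := one_le_ar h0
    have h3 := a_mul_ar hm1 (2 * j - 1) x y
    have e : m + (2 * j - 1) + 1 = n := by omega
    rw [e] at h3
    by_contra hcon
    have h4 : a n x y = 0 := by omega
    rw [h4, mul_zero] at h3
    have := Nat.mul_le_mul h1 h2
    omega

end Pool.Agent.TH262.SawE
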